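import Pool.Agent.H75.L.W662.CB.Stmts2
import Pool.Agent.H75.L.W509.CB.E9

/-!
CB2-Q6: the Fourier transform, both intertwining relations (the first two properties are taken
from E9 of W509).
-/

set_option autoImplicit false

open MeasureTheory Filter Topology Complex
open scoped InnerProductSpace ENNReal SchwartzMap FourierTransform

namespace Pool.Agent.W52.CB2

open Pool.Agent.W662.CB
open Pool.Agent.W509.CB (four_post four_shift tl tl_ae mul_sch shift_ae)

noncomputable section

variable {H : Type} [NormedAddCommGroup H] [InnerProductSpace ℂ H] [CompleteSpace H]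

theorem finv_shift (t : ℝ) (f : 𝓢(ℝ, H)) (w : ℝ) :
    (𝓕⁻ (f.compSubConstCLM ℂ t)) w =
      Complex.exp (2 * Real.pi * I * t * w) • ((𝓕⁻ f) w) := by
  have h := four_shift t f (-w)
  rw [SchwartzMap.fourier_coe, SchwartzMap.fourier_coe] at h
  rw [SchwartzMap.fourierInv_coe, SchwartzMap.fourierInv_coe, Real.fourierInv_eq_fourier_neg,
    Real.fourierInv_eq_fourier_neg, h]
  congr 2
  push_cast
  ring

theorem q6 : S_Q6 := by
  intro H _ _ _
  refine ⟨Lp.fourierTransformₗᵢ ℝ H, ?_, ?_, ?_⟩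
  · intro y S hS f
    have hSf : ∀ g : 𝓢(ℝ, H), S (g.toLp 2) = (g.postcompCLM y).toLp 2 := by
      intro g
      apply Lp.ext
      refine (hS _).trans ?_
      filter_upwards [g.coeFn_toLp 2 volume, (g.postcompCLM y).coeFn_toLp 2 volume] with s h1 h2
      rw [h1, h2, SchwartzMap.postcompCLM_apply]
    refine DenseRange.induction_on (p := fun f => (Lp.fourierTransformₗᵢ ℝ H) (S f) =
      S ((Lp.fourierTransformₗᵢ ℝ H) f))
      (SchwartzMap.denseRange_toLpCLM (F := H) (μ := (volume : Measure ℝ)) (p := 2)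
        ENNReal.ofNat_ne_top) f ?_ ?_
    · exact isClosed_eq ((Lp.fourierTransformₗᵢ ℝ H).continuous.comp S.continuous)
        (S.continuous.comp (Lp.fourierTransformₗᵢ ℝ H).continuous)
    · intro g
      rw [SchwartzMap.toLpCLM_apply]
      rw [hSf]
      have e1 : (Lp.fourierTransformₗᵢ ℝ H) ((g.postcompCLM y).toLp 2) =
        (𝓕 (g.postcompCLM y)).toLp 2 := SchwartzMap.toLp_fourier_eq _
      have e2 : (Lp.fourierTransformₗᵢ ℝ H) (g.toLp 2) = (𝓕 g).toLp 2 :=
        SchwartzMap.toLp_fourier_eq _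
      rw [e1, e2, hSf]
      congr 1
      ext w
      rw [four_post, SchwartzMap.postcompCLM_apply]
  · intro t S S' hS hS' f
    have hSf : ∀ g : 𝓢(ℝ, H), S (g.toLp 2) = (g.compSubConstCLM ℂ t).toLp 2 := by
      intro g
      apply Lp.ext
      refine (hS _).trans ?_
      refine (shift_ae t (g.coeFn_toLp 2 volume)).trans ?_
      filter_upwards [(g.compSubConstCLM ℂ t).coeFn_toLp 2 volume] with s h2
      rw [h2, SchwartzMap.compSubConstCLM_apply]
    refine DenseRange.induction_on (p := fun f => (Lp.fourierTransformₗᵢ ℝ H) (S f) =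
      S' ((Lp.fourierTransformₗᵢ ℝ H) f))
      (SchwartzMap.denseRange_toLpCLM (F := H) (μ := (volume : Measure ℝ)) (p := 2)
        ENNReal.ofNat_ne_top) f ?_ ?_
    · exact isClosed_eq ((Lp.fourierTransformₗᵢ ℝ H).continuous.comp S.continuous)
        (S'.continuous.comp (Lp.fourierTransformₗᵢ ℝ H).continuous)
    · intro g
      rw [SchwartzMap.toLpCLM_apply]
      rw [hSf]
      have e1 : (Lp.fourierTransformₗᵢ ℝ H) ((g.compSubConstCLM ℂ t).toLp 2) =
        (𝓕 (g.compSubConstCLM ℂ t)).toLp 2 := SchwartzMap.toLp_fourier_eq _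
      have e2 : (Lp.fourierTransformₗᵢ ℝ H) (g.toLp 2) = (𝓕 g).toLp 2 :=
        SchwartzMap.toLp_fourier_eq _
      rw [e1, e2]
      exact mul_sch t S' hS' _ _ (four_shift t g)
  · intro t S S' hS hS' f
    have hSf : ∀ g : 𝓢(ℝ, H), S (g.toLp 2) = (g.compSubConstCLM ℂ t).toLp 2 := by
      intro g
      apply Lp.ext
      refine (hS _).trans ?_
      refine (shift_ae t (g.coeFn_toLp 2 volume)).trans ?_
      filter_upwards [(g.compSubConstCLM ℂ t).coeFn_toLp 2 volume] with s h2
      rw [h2, SchwartzMap.compSubConstCLM_apply]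
    have key : ∀ g : LR H, (Lp.fourierTransformₗᵢ ℝ H).symm (S g) =
        S' ((Lp.fourierTransformₗᵢ ℝ H).symm g) := by
      intro g
      refine DenseRange.induction_on (p := fun f => (Lp.fourierTransformₗᵢ ℝ H).symm (S f) =
        S' ((Lp.fourierTransformₗᵢ ℝ H).symm f))
        (SchwartzMap.denseRange_toLpCLM (F := H) (μ := (volume : Measure ℝ)) (p := 2)
          ENNReal.ofNat_ne_top) g ?_ ?_
      · exact isClosed_eq ((Lp.fourierTransformₗᵢ ℝ H).symm.continuous.comp S.continuous)
          (S'.continuous.comp (Lp.fourierTransformₗᵢ ℝ H).symm.continuous)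
      · intro g
        rw [SchwartzMap.toLpCLM_apply]
        rw [hSf]
        have e1 : (Lp.fourierTransformₗᵢ ℝ H).symm ((g.compSubConstCLM ℂ t).toLp 2) =
          (𝓕⁻ (g.compSubConstCLM ℂ t)).toLp 2 := SchwartzMap.toLp_fourierInv_eq _
        have e2 : (Lp.fourierTransformₗᵢ ℝ H).symm (g.toLp 2) = (𝓕⁻ g).toLp 2 :=
          SchwartzMap.toLp_fourierInv_eq _
        rw [e1, e2]
        show tl (𝓕⁻ (g.compSubConstCLM ℂ t)) = S' (tl (𝓕⁻ g))
        apply Lp.ext
        refine EventuallyEq.trans ?_ (hS' _).symm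
        filter_upwards [tl_ae (𝓕⁻ (g.compSubConstCLM ℂ t)), tl_ae (𝓕⁻ g)] with w k1 k3
        rw [k1, k3]
        exact finv_shift t g w
    have h1 := key ((Lp.fourierTransformₗᵢ ℝ H) f)
    rw [LinearIsometryEquiv.symm_apply_apply] at h1
    rw [← h1, LinearIsometryEquiv.apply_symm_apply]

end

end Pool.Agent.W52.CB2
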